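import Pool.Agent.Run7.h709.AC.Chi
import Pool.Agent.Run7.h709.AC.Cs

/-!
# `L²`-Betti numbers above the middle dimension: all the covers of explicit aspherical manifolds

Let `W G` be the right-angled Coxeter group of the finite graph `G`, and let `Γ` be the kernel of `W G → (ℤ/2)^V`, a
torsion free subgroup of finite index. If the flag complex of `G` is a triangulation (as a combinatorial manifold) of
the `(n-1)`-sphere then `Γ` is the fundamental group of a closed aspherical `n`-manifold `M`, the quotient of the Davis
complex; if it is a full subcomplex of such a triangulation then `Γ` is the fundamental group of a compact aspherical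
`n`-manifold `M` with boundary. The subgroups `K` of `Γ`, of finite or infinite index, finitely generated or not, are
the fundamental groups of the covers of `M`.

We define a class `AC G b` of sets of vertices. If the set of all vertices is in the class `AC G b` then for *every*
subgroup `K` of `Γ` all the `L²`-Betti numbers `b_k(K)`, `k ≥ b`, vanish (`HasL2Betti K k 0`: Lueck's dimension of
`Tor_k^{ℤ[K]}(N(K), ℤ)`, `N(K)` the group von Neumann algebra). The class contains the sets whose cliques have at most
`b` elements and for which the `ℓ²`-homology of the Davis complex vanishes in the top degree `b`, and is closed under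
cones and suspensions (with the same `b`), under adding a vertex whose link is in the class `b - 1`, and under gluing
along full subcomplexes of the class `b - 1`.

Two families of examples are part of the theorem.

* Let `X` be a simplicial complex in the sphere of dimension `2 d` with vertices coloured by `d + 1` colours such that
  no triangle is monochromatic. Subdivide the monochromatic edges by their midpoints (`cs X col`). Then one can take
  `b = d + 1`. If `X` triangulates the sphere of dimension `2 d - 1` or `2 d` then this is the assertion of Q1, for
  all the covers of the closed aspherical manifold `M` of dimension `2 d` or `2 d + 1`. For `d = 1` such colourings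
  of triangulated 2-spheres exist by the four colour theorem.
* Let `G` be the join of `m` graphs which are `2`-degenerate (each nonempty set `D` of vertices contains a vertex with
  at most two neighbours in `D`): for example polygons, trees, outerplanar and series-parallel graphs, or arbitrary
  graphs whose edges have been subdivided. Then one can take `b = m + 1`. (For polygons `M` is a product of `m`
  closed surfaces; for subdivided graphs the dimension of `Γ` is `2 m`.)
-/

set_option autoImplicit false

namespace Pool.Agent.Results.MP_4f4d9f_gt.AllCoversClass

open Pool.Agent.W907.SG Pool.Agent.W461.SGN Pool.Agent.N496.CV Pool.Agent.R782.Bal Run7.h709.AC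

/-- Let `Γ` be the kernel of `W G → (ℤ/2)^V`. (1) `Γ` is torsion free of finite index, and if the set of all vertices
of the finite graph `G` is in the class `AC G b` then the `L²`-Betti numbers in the degrees `k ≥ b` of all the
subgroups `K ≤ Γ` (of arbitrary index) vanish. (2) This holds in the degrees `k > d` if `G` is obtained from a
simplicial complex `X` embedded in the sphere of dimension `2 d`, with vertices coloured by `d + 1` colours and without
monochromatic triangles, by subdividing the monochromatic edges. (3) This holds in the degrees `k > m` if `G` is the
join of `m` graphs which are `2`-degenerate. -/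
theorem result :
    (∀ (b : ℕ) (V : Type) [Fintype V] [LinearOrder V] (G : SimpleGraph V), (th G).ker.FiniteIndex ∧
      (∀ g ∈ (th G).ker, ∀ j : ℕ, 0 < j → g ^ j = 1 → g = 1) ∧
      (AC G b Set.univ → ∀ K : Subgroup (W G), K ≤ (th G).ker → ∀ k : ℕ, b ≤ k → HasL2Betti K k 0)) ∧
    (∀ (d N : ℕ) (X : Finset (Finset (Fin N))) (col : Fin N → Fin (d + 1)),
      (∀ σ ∈ X, ∀ τ : Finset (Fin N), τ ⊆ σ → τ ∈ X) →
      (∀ σ ∈ X, (∀ v ∈ σ, ∀ w ∈ σ, col v = col w) → σ.card ≤ 2) → EmbX d X col →
      ∀ [Fintype (MF X col)] [LinearOrder (MF X col)], ∀ K : Subgroup (W (cs X col)), K ≤ (th (cs X col)).ker →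
        ∀ k : ℕ, d < k → HasL2Betti K k 0) ∧
    (∀ (m : ℕ) (V : Type) [Fintype V] [LinearOrder V] (G : SimpleGraph V) (p : V → Fin m),
      (∀ u v, p u ≠ p v → G.Adj u v) → (∀ i, Deg2 G p i) → ∀ K : Subgroup (W G), K ≤ (th G).ker →
        ∀ k : ℕ, m < k → HasL2Betti K k 0) := by
  refine ⟨?_, ?_, ?_⟩
  · intro b V _ _ G
    refine ⟨inferInstance, fun g hg j hj hgj => Pool.Agent.N496.CV.tf' V G g hg j hj hgj, fun h K hK k hk => ?_⟩
    have hb := h.pos
    exact main_has G h K hK k hk (by omega)
  · intro d N X col hX ht hE _ _ K hK k hk
    exact main_has _ (ac_cs hX ht hE) K hK k (by omega) (by omega)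
  · intro m V _ _ G p hp hd K hK k hk
    exact main_has G (ac_joins p hp hd) K hK k (by omega) (by omega)

end Pool.Agent.Results.MP_4f4d9f_gt.AllCoversClass
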