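import Pool.Agent.Run7.h606.DB.Amen
import Pool.Agent.R703.MO.Main

/-!
# Vanishing of `ℓ²`-Betti numbers by unfolding along amenable sets of mirrors

Let `L` be the flag complex of the finite graph `G`. If `L` is a full subcomplex of a triangulation of the `(n-1)`-sphere
then the Davis complex of the right-angled Coxeter group `W G` thickens to a contractible `n`-manifold and the quotients
by the torsion-free subgroups of finite index are compact aspherical `n`-manifolds with boundary.

We show that the `ℓ²`-Betti numbers of `W G` vanish in the degrees `> d` if there is a set `A` of vertices such that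

* each element of `A` is adjacent to all the other elements of `A` with at most one exception, so that `A` generates
  a product of groups of order two and infinite dihedral groups, and
* the cliques of `G` which are disjoint from `A` have at most `d` elements.

There is no condition on the dimension of `L` or on the links of the elements of `A`.

Proof. For a vertex `v` let `DG G v` be the graph of two copies of `G - v`, glued along the link of `v`; its
right-angled Coxeter group is a subgroup of index two of `W G`. Passing from `G` to `DG G v` and from `A` to its
preimage, for an element `v` of `A`, gives a pair with the same properties: if `v` is adjacent to all the other elements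
of `A` then the new set is smaller, and otherwise it has the same number of elements and one can repeat this with the
new pair of vertices which are not adjacent. The graph obtained in `k` steps by deleting the pair satisfies the theorem
by induction; as the links of the two vertices do not grow, the Betti numbers of `W G` are at most `c / 2 ^ k` times the
index.
-/

set_option autoImplicit false

namespace Pool.Agent.Results.MP_4f4d9f_gt.AmenableUnfoldings

open Pool.Agent.W907.SG Pool.Agent.Y132.SI Pool.Agent.R580.CD Pool.Agent.W461.SGN Pool.Agent.W338.SG
  Pool.Agent.Run7.h606.DB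

/-- the cliques inside of `B` have at most `d` elements -/
def Low (d : ℕ) : PP := fun V _ _ G B => ∀ T : Finset V, G.IsClique (T : Set V) → (T : Set V) ⊆ B → T.card ≤ d

theorem clo_low (d : ℕ) : Clo (Low d) where
  dbl := by
    classical
    intro V _ _ G B v _ hB T hT hTB
    have hinj : Set.InjOn (fun p : DV G v => (ofLex (p : V ×ₗ Bool)).1) (T : Set (DV G v)) := by
      intro p hp q hq hpq
      by_contra hne
      have h1 : G.Adj (ofLex (p : V ×ₗ Bool)).1 (ofLex (q : V ×ₗ Bool)).1 := (hT hp hq hne).1
      beta_reduce at hpq
      rw [hpq] at h1
      exact G.loopless.irrefl _ h1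
    rw [← Finset.card_image_of_injOn hinj]
    refine hB _ ?_ ?_
    · intro x hx y hy hxy
      rw [Finset.mem_coe, Finset.mem_image] at hx hy
      obtain ⟨p, hp, rfl⟩ := hx
      obtain ⟨q, hq, rfl⟩ := hy
      exact (hT hp hq fun e => hxy (by rw [e])).1
    · intro x hx
      rw [Finset.mem_coe, Finset.mem_image] at hx
      obtain ⟨p, hp, rfl⟩ := hx
      exact hTB hp
  res := by
    classical
    intro V _ _ G B s _ _ hB T hT hTB
    rw [← Finset.card_map (Function.Embedding.subtype _)]
    refine hB _ ?_ ?_
    · intro x hx y hy hxy
      rw [Finset.mem_coe, Finset.mem_map] at hx hy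
      obtain ⟨p, hp, rfl⟩ := hx
      obtain ⟨q, hq, rfl⟩ := hy
      exact hT hp hq fun e => hxy (by rw [e])
    · intro x hx
      rw [Finset.mem_coe, Finset.mem_map] at hx
      obtain ⟨p, hp, rfl⟩ := hx
      exact hTB hp

/-- Let each element of the set `A` of vertices of the finite graph `G` be adjacent to all the other elements of `A`
with at most one exception, and let the cliques of `G` which are disjoint from `A` have at most `d` elements. (1) The
reduced `ℓ²`-homology of the Davis complex of the right-angled Coxeter group `W G` vanishes in the degrees `i > d`.
(2) For each `ε > 0` there is a finite set `E` of nontrivial elements of `W G` such that the `i`-th real Betti number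
of `H` is at most `ε [W G : H]` for every subgroup `H` of finite index which contains no conjugate of an element of `E`
and for all `i > d`. -/
theorem result : ∀ (d : ℕ) (V : Type) [Fintype V] [LinearOrder V] (G : SimpleGraph V) (A : Set V),
    (∀ a ∈ A, ∀ b ∈ A, ∀ c ∈ A, b ≠ a → c ≠ a → ¬ G.Adj a b → ¬ G.Adj a c → b = c) →
    (∀ T : Finset V, G.IsClique (T : Set V) → Disjoint (T : Set V) A → T.card ≤ d) →
    (∀ i : ℕ, d < i → L2Van G i) ∧
    ∀ ε : ℝ, 0 < ε → ∃ E : Finset (W G), (1 : W G) ∉ E ∧
      ∀ H : Subgroup (W G), H.FiniteIndex → (∀ g ∈ E, ∀ x : W G, x * g * x⁻¹ ∉ H) →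
        ∀ i : ℕ, d < i → (Module.finrank ℝ (HInv G H i) : ℝ) ≤ ε * H.index := by
  intro d V _ _ G A hA hT
  have h : ∀ i : ℕ, d < i → L2Van G i := by
    intro i hi
    refine amen_main (clo_low d) (i := i) ?_ _ V G Aᶜ ?_ (by rw [compl_compl]; exact hA) le_rfl
    · intro V _ _ G hB c hc
      funext w T
      refine hc.supp w T ?_
      rintro ⟨h1, h2⟩
      have h3 := hB T h1 (Set.subset_univ _)
      omega
    · intro T h1 h2
      exact hT T h1 (Set.subset_compl_iff_disjoint_right.1 h2)
  exact ⟨h, fun ε hε => Pool.Agent.R703.MO.growth_set G (fun i => d < i) h ε hε⟩

end Pool.Agent.Results.MP_4f4d9f_gt.AmenableUnfoldings
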