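import Pool.Agent.Run7.h714.DU.Inv

/-!
# The Betti numbers in the degrees `≥ n - 2` of the aspherical manifolds given by full subcomplexes of flag spheres

Let `L` be a flag complex which is a homology `(n - 1)`-sphere over the reals, `n ≥ 5`, given by its graph `G`
(`Sph ℝ n G`), `W` its right-angled Coxeter group, `Σ` the Davis complex of `W` (a contractible homology `n`-manifold,
and an `n`-manifold if `L` is a triangulated sphere), and `A` a set of vertices of `L`. For a torsion-free subgroup `H`
of finite index of `W` the cubes `w W_T`, `T ⊆ A`, form a subcomplex of the closed aspherical manifold `H \ Σ`, a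
disjoint union of copies of quotients of the Davis complex `Σ_A` of the special subgroup `W_A`; the components of a
regular neighbourhood are compact aspherical `n`-manifolds with boundary with the fundamental groups
`H ∩ w W_A w⁻¹`. By the Hodge theorem the dimension of `HInvA G H A i` is the `i`-th real Betti number of this
subcomplex. If `H` runs through a decreasing sequence of normal subgroups with trivial intersection then, by the
approximation theorem of Lück, this dimension divided by the index `[W : H]` tends to the `ℓ²`-Betti number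
`b_i(W_A)`, that is, to the `ℓ²`-Betti numbers of these manifolds divided by the indices of their groups in `W_A`.

**Results** (no hypothesis besides being a flag homology sphere), in terms of the `ℓ²`-Betti numbers:
1. `b_i(W_A) = 0` for `i ≥ n - 1`.
2. `b_(n-2)(W_A) ≤ 2^(3-n) ∑_T χ(lk T)`, the sum over the simplices `T ⊆ A` with `n - 4` vertices; `χ(lk T)`, the sum of
the `(-1/2)^|S|` over the simplices `S` of the link, is the Charney-Davis quantity of the flag 3-sphere `lk T`, which is
nonnegative by the theorem of Davis and Okun. It is sufficient to sum over the simplices `T ⊆ A \ I`, if `I ⊆ A`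
contains no triangle, or if the full subcomplex on `I` can be properly coloured by three colours and `L` is also a
homology sphere over the field with two elements.
3. The same bound for `b_2(W)` (closed manifolds), by Poincaré duality.

For `n = 5` this is the bound `b_3(W_A) ≤ (1/4) ∑_(w ∈ A \ I) χ(lk w)` for the only degree above the middle in which
the `ℓ²`-homology may be different from zero. Adding the vertices of `A` one after the other and using only the vanishing
above the middle for flag 3-spheres one gets this with the factor `1/2` (and `2^(4-n)` in 2.); the second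
factor `1/2` comes from Poincaré-Lefschetz duality for the complement of a vertex `w` of a flag 4-sphere: half of the
`ℓ²`-homology `H_2` of the link of `w` dies there.
-/

set_option autoImplicit false

namespace Pool.Agent.Results.MP_4f4d9f_gt.FirstDegree

open Pool.Agent.W907.SG (W)
open Pool.Agent.R580.CD (Sph)
open Pool.Agent.N13.EU (chiL)
open Pool.Agent.Run7.h714.DU (HInvA)

open Classical in
/-- the simplices with `k` vertices in `B` -/
noncomputable def faces {V : Type} (G : SimpleGraph V) (B : Finset V) (k : ℕ) : Finset (Finset V) :=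
  (B.powersetCard k).filter fun T => G.IsClique (T : Set V)

open Classical in
theorem faces_eq {V : Type} (G : SimpleGraph V) (B : Finset V) (k : ℕ) :
    faces G B k = Pool.Agent.Run7.h714.DU.cls G B k := by
  ext T
  rw [Pool.Agent.Run7.h714.DU.mem_cls]
  unfold faces
  rw [Finset.mem_filter, Finset.mem_powersetCard]

/-- `I` contains no triangle, or the flag complex of `G` is a homology `(n - 1)`-sphere over the field with two
elements and the full subcomplex on `I` has a proper colouring by three colours -/
def Thin {V : Type} [Fintype V] [LinearOrder V] (n : ℕ) (G : SimpleGraph V) (I : Finset V) : Prop :=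
  (∀ T ⊆ I, G.IsClique (T : Set V) → T.card ≠ 3) ∨
    (Sph (ZMod 2) n G ∧ ∃ c : V → Fin 3, ∀ u ∈ I, ∀ w ∈ I, G.Adj u w → c u ≠ c w)

theorem Thin.lv {V : Type} [Fintype V] [LinearOrder V] {k : ℕ} {G : SimpleGraph V} {I : Finset V}
    (h : Thin (k + 5) G I) (R : Finset V) (hR : G.IsClique (R : Set V)) (hRk : R.card ≤ k) :
    Pool.Agent.W907.SM.LV (G.induce ((I : Set V) ∩ Pool.Agent.W907.SM.lk G R)) (k + 3 - R.card) := by
  rcases h with h | ⟨h2, c, hc⟩
  · refine Pool.Agent.Run7.h714.DU.lv_dim_sub fun T hT hTI hTc => ?_
    obtain ⟨U, hU1, hU2⟩ := Finset.exists_subset_card_eq (show 3 ≤ T.card by omega)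
    exact h U (fun x hx => Finset.mem_coe.1 (hTI (Finset.mem_coe.2 (hU1 hx))).1)
      (hT.subset (by exact_mod_cast hU1)) hU2
  · by_cases hk : R.card = k
    · rw [hk, show k + 3 - k = 3 by omega]
      exact Pool.Agent.Run7.h714.DU.lv_three h2 R hR (by omega) _ Set.inter_subset_right c
        (fun u hu w hw => hc u (Finset.mem_coe.1 hu.1) w (Finset.mem_coe.1 hw.1)) 3 le_rfl
    · refine Pool.Agent.Run7.h714.DU.lv_dim_sub fun T hT hTI => ?_
      have := Pool.Agent.Run7.h714.DU.card_le_col (A := (I : Set V)) c
        (fun u hu w hw => hc u (Finset.mem_coe.1 hu) w (Finset.mem_coe.1 hw)) T hT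
        (hTI.trans Set.inter_subset_left)
      omega

/-- **The degrees `≥ n - 2`.** Let the flag complex of `G` be a homology `(n - 1)`-sphere over the reals, `n ≥ 5`, and
let `ε > 0`. There is a finite set `E` of nontrivial elements of the right-angled Coxeter group `W G` such that for
every subgroup `H` of finite index of the commutator subgroup of `W G` which contains no conjugate of an element of
`E`: (1) for all sets `A` of vertices and all `i ≥ n - 1` the `i`-th Betti number of the subcomplex of `H \ Σ` given by
`A` is at most `ε [W : H]`; (2) for all `I ⊆ A` with the property `Thin` the `(n-2)`-nd Betti number of this subcomplex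
is at most `(2^(3-n) ∑ χ(lk T) + ε) [W : H]`, the sum over the simplices `T ⊆ A \ I` with `n - 4` vertices; (3) for
all `I` with the property `Thin` the second Betti number of `H \ Σ` is at most `(2^(3-n) ∑ χ(lk T) + ε) [W : H]`, the sum
over the simplices `T` with `n - 4` vertices and without vertices in `I`. -/
theorem result (n : ℕ) (hn : 5 ≤ n) (V : Type) [Fintype V] [LinearOrder V] (G : SimpleGraph V) (hS : Sph ℝ n G)
    (ε : ℝ) (hε : 0 < ε) :
    ∃ E : Finset (W G), (1 : W G) ∉ E ∧ ∀ H : Subgroup (W G), H ≤ commutator (W G) → H.FiniteIndex →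
      (∀ g ∈ E, ∀ x : W G, x * g * x⁻¹ ∉ H) →
      (∀ (A : Finset V) (i : ℕ), n - 1 ≤ i → (Module.finrank ℝ (HInvA G H A i) : ℝ) ≤ ε * H.index) ∧
      (∀ A I : Finset V, I ⊆ A → Thin n G I →
        (Module.finrank ℝ (HInvA G H A (n - 2)) : ℝ) ≤
          (((∑ T ∈ faces G (A \ I) (n - 4), chiL G T) / 2 ^ (n - 3) : ℚ) + ε) * H.index) ∧
      (∀ I : Finset V, Thin n G I →
        (Module.finrank ℝ (HInvA G H Finset.univ 2) : ℝ) ≤
          (((∑ T ∈ faces G (Finset.univ \ I) (n - 4), chiL G T) / 2 ^ (n - 3) : ℚ) + ε) * H.index) := by
  classical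
  obtain ⟨k, rfl⟩ : ∃ k, n = k + 5 := ⟨n - 5, by omega⟩
  have hH := Pool.Agent.Run7.h714.DU.hsph_iff.1 hS
  obtain ⟨E, hE, h⟩ := Pool.Agent.Run7.h714.DU.growth_sub k hH ε hε
  refine ⟨E, hE, fun H hHc hfin hEH => ?_⟩
  obtain ⟨h1, h2⟩ := h H hHc hfin hEH
  have h3 : ∀ A I : Finset V, I ⊆ A → Thin (k + 5) G I →
      (Module.finrank ℝ (HInvA G H A (k + 5 - 2)) : ℝ) ≤
        (((∑ T ∈ faces G (A \ I) (k + 5 - 4), chiL G T) / 2 ^ (k + 5 - 3) : ℚ) + ε) * H.index := by
    intro A I hIA hI
    have h4 := h2 I (A \ I) (fun v hv => (Finset.mem_sdiff.1 hv).2) (fun R hR _ hRk => hI.lv R hR hRk)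
    rw [Finset.union_sdiff_of_subset hIA] at h4
    rw [faces_eq]
    exact h4
  refine ⟨fun A i hi => h1 A i (by omega), h3, fun I hI => ?_⟩
  have h5 := h3 Finset.univ I (Finset.subset_univ _) hI
  have : Finite (Quotient (QuotientGroup.rightRel H)) :=
    Finite.of_equiv _ (QuotientGroup.quotientRightRelEquivQuotientLeftRel H).symm
  let _ : Fintype (Quotient (QuotientGroup.rightRel H)) := Fintype.ofFinite _
  rw [Pool.Agent.Run7.h714.DU.finrank_HInvA] at h5 ⊢
  rw [Finset.coe_univ] at h5 ⊢
  have h6 := Pool.Agent.TH652.Dual.duality_sgn hH (Pool.Agent.Y132.SI.aa_inv G H)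
    (fun u v h x => Pool.Agent.Y132.SI.aa_comm G H u v h x) (Pool.Agent.Y132.SI.sn_self G H hHc)
    (fun u v h x => Pool.Agent.Y132.SI.sn_other G H hHc u v h x) (i := 2) (j := k + 5 - 2) (by omega)
  rw [h6]
  exact h5

end Pool.Agent.Results.MP_4f4d9f_gt.FirstDegree
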