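import Pool.Agent.Run7.h31.Brown.Vanish

/-!
# `L²`-Betti numbers of aspherical manifolds and actions with infinite stabilizers

Let `M` be an aspherical manifold, compact or not, whose fundamental group `G` is of type `FP_{m+1}`
over `ℂ`; then the `L²`-Betti numbers of `M` in the degrees at most `m` are given by a resolution `D`
of the trivial module which is finitely generated in these degrees. Let `H` be a subgroup of finite
index which acts by order-preserving maps on a totally ordered set `X`.

Suppose that `H` also acts on a complex `Y`, with infinite stabilizers in general, such that the cells
have heights in `X`, and for each `x` in `X` the subcomplex of the cells of height at least `x` has the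
homology of a point in the dimensions less than `m`. If there are finitely many orbits of cells of the
dimensions `b ≤ m` and their stabilizers are of type `FP_{m-b}`, as in Brown's criterion, then the
`L²`-Betti numbers of `M` vanish in the degrees at most `m`. There is no condition on the `L²`-Betti
numbers of the stabilizers.

An example is a fibration: if `N` is a normal subgroup of `H` of type `FP_m` and the quotient `H / N`
has a complex of finitely generated free modules with heights in an ordered `H / N`-set whose upper
subcomplexes are exact in the degrees less than `m`, then the `L²`-Betti numbers of `M` in the
degrees at most `m` vanish, for every such fiber `N` and every extension.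

Outline. The modules of the chains of `Y` are filtered by `X`. A filtered module is said to be of type
`FP_n` if it has a resolution by finitely generated free modules with heights which is exact on all
levels of the filtration, up to degree `n`. For the chains of dimension `b` such a resolution is
induced from the stabilizers, which preserve the heights. A horseshoe lemma and a lemma on quotients
give by descending induction a resolution of the trivial module of `H` by finitely generated free
modules with heights whose upper subcomplexes are exact. It has endomorphisms which lift the identity
and strictly raise all heights, and the level inequality `N309.LO.level_le` gives the vanishing.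
-/

set_option autoImplicit false

open scoped Matrix

universe u v

namespace Pool.Agent.Results.MP_4f4d9f_gt.InfiniteStabilizers

open Pool.Agent.Results.MP_984acc_gt.OrderRaising Run7.h31.Brown

/-- **Actions with infinite stabilizers and fibrations.** Let `D` be a complex of finitely generated
free modules over the group algebra of `G` which is a resolution of the trivial module up to degree
`m + 1`, let `H` be a subgroup of `G` of finite index, and let `X` be a nonempty totally ordered set
without greatest element.

1. Let `H` act by order-preserving maps on `X`, and let `Y`, with the boundary operators `d`, be a
complex of permutation modules of `H` with heights in `X` whose upper subcomplexes have the homology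
of a point in the dimensions less than `m`. If `H` has finitely many orbits in `Y b` and the
stabilizers of the elements of `Y b` are of type `FP_{m-b}`, for all `b ≤ m`, then
`betti D i = 0` for all `i ≤ m`.
2. Let `N` be a normal subgroup of `H` of type `FP_m`, let `H ⧸ N` act by order-preserving maps on `X`,
and let `E` be a complex of finitely generated free modules of `H ⧸ N` with heights in `X` whose upper
subcomplexes are exact in the degrees less than `m`. Then `betti D i = 0` for all `i ≤ m`. -/
theorem result (G : Type u) [Group G] (m : ℕ) (r : ℕ → ℕ) (D : Matrices G r) (a : Fin (r 0) → ℂ)
    (hD : IsPartialResolution (m + 1) D a) (H : Subgroup G) [H.FiniteIndex]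
    (X : Type v) [LinearOrder X] [Nonempty X] [NoMaxOrder X] :
    (∀ [MulAction H X] (Y : ℕ → Type u) [∀ b, MulAction H (Y b)]
      (d : ∀ b, (Y (b + 1) →₀ ℂ) →ₗ[ℂ] (Y b →₀ ℂ)) (α : Y 0 → ℂ) (h : ∀ b, Y b → X),
      OrderInvariant H X → IsHeightComplex (G := H) m d α h →
      (∀ b, b ≤ m → Finite (MulAction.orbitRel.Quotient H (Y b))) →
      (∀ b, b ≤ m → ∀ y : Y b, IsFP (MulAction.stabilizer H y) (m - b)) →
      ∀ i, i ≤ m → betti D i = 0) ∧
    (∀ (N : Subgroup H) [N.Normal] [MulAction (H ⧸ N) X] (q : ℕ → ℕ) (E : Matrices (H ⧸ N) q)
      (a' : Fin (q 0) → ℂ) (w : ∀ i, Fin (q i) → X), IsFP N m → OrderInvariant (H ⧸ N) X →
      IsUpperExact m E a' w → ∀ i, i ≤ m → betti D i = 0) := by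
  constructor
  · intro _ Y _ d α h hX hY hfin hS i hi
    exact vanish_index H hX m D a hD (upper_of_cells hX m d α h hY hfin hS) i hi
  · intro N _ _ q E a' w hN hX hE i hi
    let _ : MulAction H X := actX N X
    have hX' : OrderInvariant H X := fun g x y hxy => hX (g : H ⧸ N) x y hxy
    exact vanish_index H hX' m D a hD (upper_of_ext N X hX m hN E a' w hE) i hi

end Pool.Agent.Results.MP_4f4d9f_gt.InfiniteStabilizers
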